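import Mathlib
import Pool.Agent.W548.Sl.Field

/-!
# The Tate conjecture for almost all slope types of CM fields with many central automorphisms

Let `E` be a CM field of degree `2 g` (the Galois group of its normal closure is arbitrary), `P` a
group of automorphisms of the complex numbers which is transitive on the complex embeddings of `E`,
for instance the group of all automorphisms, and `H` a subgroup of `P` which contains the complex
conjugation and whose elements commute with those of `P` on the embeddings (`CentralPair`). The
permutations of the embeddings induced by `H` form a commutative group of order `2 n`, where `n`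
divides `g`. Examples:

* `E` is an abelian extension of the rational numbers, `P = H` is the group of all automorphisms and
  `n = g`; more generally some commutative group of automorphisms is transitive on the embeddings of
  `E`, for instance because some rational prime is inert in `E`;
* `E = E₀ K`, where `E₀` is any CM field and `K` a totally real abelian extension of the rational
  numbers of degree `n`, linearly disjoint from the normal closure of `E₀`.

Let `M` be a function on the complex embeddings of `E` with nonzero integral values, invariant under
the complex conjugation. Together with a CM type `Φ`, a prime number `p`, an embedding `θ` of the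
algebraic closure of `ℚ_p` in the complex numbers and a rational number `κ` it describes the slopes
`(m + κ M) / 2` on `Φ`, `(m - κ M) / 2` outside `Φ` of a number `π` of `E` of weight `m`
(`HasSlopes`). The case `M = 1`, `κ = m` is the ordinary one: the Frobenius endomorphism of the
reduction of an abelian variety of CM type `(E, Φ)` at a place of degree one over a prime number
that splits completely has the slopes `1` on `Φ` and `0` outside `Φ`. In general the function `M`
prescribes the distances of the slopes from `m / 2`; if `p` splits completely in `E` then for
suitable `m` all these slope functions occur by the theorem of Honda.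

The theorem shows that, whatever `M` is, among the `2 ^ g` sign patterns `Φ` at most
`2 ^ g * (g / n) * oddSum E H M` are degenerate, where

`oddSum E H M ≤ q * √(2 / (3 * n)) + (N + 8) / (2 * n)`,

`q` is the number of characters of order two with value `-1` at the complex conjugation of the group
of permutations induced by `H` (`q` is replaced by `0` if `n = g` and all weights are odd) and `N`
is the number of its elements of order dividing `12`. This tends to zero, for example, for cyclic
CM fields, for abelian CM fields with a bounded number of generators of the Galois group, and for
the fields `E₀ K`, `E₀` fixed, if the degree of `K` tends to infinity and the number of generators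
of its Galois group remains bounded; uniformly in `M` and `p`.

If the CM fields `E i` are pairwise independent (nothing is assumed if there is only one field) and
the types `Φ i` are not degenerate for the weights `M i`, then for all `p`, `θ` and all Weil numbers
`π i` in `E i` with these slopes all Tate classes in all tensor products of spaces with semisimple
endomorphisms with eigenvalues conjugate to the `π i` (with any multiplicities, over all finite
extensions) are generated by pairings. For the first cohomology of abelian varieties over finite
fields these are classes of divisors by the theorem of Tate; so the Tate conjecture holds for all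
products of these abelian varieties over all finite extensions. For `M = 1` this contains the Tate
conjecture for all products of abelian varieties over number fields of the CM types `(E i, Φ i)`:
a Tate class over a number field is fixed by a power of the Frobenius endomorphism at a place of
degree one over a prime number that splits completely, and so it is generated by pairings, which
are combinations of the divisor classes given by the polarisations and the endomorphisms.
-/

namespace Pool.Agent.Results.MP_0fca13_ag.AlmostAllSlopeTypes

open NumberField Module Pool.Agent.H204R3.CM Pool.Agent.H977R3.CM Pool.Agent.W548.Ab
  Pool.Agent.W548.Sl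

/-- CM fields `E i` of degree `2 g i` with central pairs `(P i, H i)` of groups of automorphisms of
the complex numbers; the group of permutations of the embeddings of `E i` induced by `H i` has order
`2 n i`. For all nonzero integral weights `M i` the number of CM types of `E i` that are degenerate
for these weights is at most `2 ^ g * (g / n) * oddSum`, and `oddSum` is at most
`q * √(2 / (3 * n)) + (N + 8) / (2 * n)`. For CM types `Φ i` that are not degenerate, all prime
numbers `p`, all embeddings `θ`, and all numbers `π i` in `E i` all whose complex absolute values are
`p ^ (m i / 2)` and whose slopes are given by `M i`, `Φ i` and `κ i`, all Tate classes are generated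
by pairings. -/
theorem result {I : Type} [Fintype I] (E : I → Type) [∀ i, Field (E i)] [∀ i, NumberField (E i)]
    [∀ i, IsCMField (E i)] (P H : I → Subgroup (ℂ ≃+* ℂ)) (h : ∀ i, CentralPair (E i) (P i) (H i))
    (g n : I → ℕ) (hg : ∀ i, finrank ℚ (E i) = 2 * g i)
    (hn : ∀ i, Nat.card (Im (E i) (H i)) = 2 * n i) (hind : PairwiseIndep E)
    (M : ∀ i, (E i →+* ℂ) → ℤ) (hM : ∀ i φ, M i (ComplexEmbedding.conjugate φ) = M i φ)
    (hM0 : ∀ i φ, M i φ ≠ 0) :
    (∀ i, ((Degenerate (E i) (M i)).ncard : ℝ) ≤
      2 ^ g i * ((g i : ℝ) / n i) * oddSum (E i) (H i) (M i)) ∧
    (∀ i, oddSum (E i) (H i) (M i) ≤ (numQuad (E i) (H i) (M i) : ℝ) * √(2 / (3 * (n i : ℝ))) +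
      ((numTwelve (E i) (H i) : ℝ) + 8) / (2 * n i)) ∧
    ∀ Φ : ∀ i, Set (E i →+* ℂ), (∀ i, IsCMType (Φ i)) → (∀ i, Φ i ∉ Degenerate (E i) (M i)) →
      ∀ (p : ℕ) [Fact p.Prime] (θ : PadicAlgCl p →+* ℂ) (m : I → ℕ) (π : ∀ i, E i) (κ : I → ℚ),
        (∀ i, κ i ≠ 0) → (∀ i, ∀ φ : E i →+* ℂ, ‖φ (π i)‖ ^ 2 = (p : ℝ) ^ m i) →
        (∀ i, HasSlopes p θ (M i) (Φ i) (π i) (m i) (κ i)) → TateGenerated p E m π :=
  ⟨fun i => ncard_degenerate_le (h i) (M i) (hM i) (hM0 i) (g i) (n i) (hg i) (hn i),
    fun i => oddSum_le (h i) (M i) (n i) (hn i),
    fun _Φ hΦ hex p _ θ m π κ hκ hweil hslope =>
      tate_of_not_degenerate hind hM hΦ hex p θ m π κ hκ hweil hslope⟩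

end Pool.Agent.Results.MP_0fca13_ag.AlmostAllSlopeTypes
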