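import Mathlib
import Pool.Agent.W514.OP.Final

/-!
# Tate classes on products `X ^ m × Y ^ m'` from ONE Frobenius element

Let `X` be an abelian variety without factors of type IV, or a K3 surface whose transcendental part
has only self-adjoint endomorphisms, over a finitely generated field `k`, for example a number field,
and let `Y` be an ARBITRARY smooth projective variety over `k`. Let `Γ` be the absolute Galois group,
`E` an algebraic closure of `ℚ_ℓ`, and `V` the dual of the cohomology group `H ^ w (X)` (or of its
transcendental part) with coefficients in `E`. The polarization is a nondegenerate form `B` on `V`
which is multiplied by `χ s ^ w` if `s ∈ Γ` is applied to both variables. Forms in `n` variables in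
`V` are the elements of the `n`-th tensor power of `H ^ w (X)`, a subquotient of the cohomology of
`X ^ n` (for an abelian variety `X` and `w = 1` one gets all cohomology groups of all powers of `X`
in this way); the spaces `W l` are the duals of cohomology groups of `Y`. A Tate class is a form that
is multiplied by a power of `χ s` if an element `s` of some open subgroup is applied to all
variables.

Suppose that there is ONE place with Frobenius element `d` (of good reduction of `X` and `Y`) such
that

* the eigenvalues of `d` on `V` are different and no quotient of two of them is a root of unity;
* the field generated by the Frobenius eigenvalues of `X` at this place and the field generated by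
  the Frobenius eigenvalues of `Y` at this place have only real numbers in common, that is, they have
  no CM field in common (or, more generally, in every relation between eigenvalues of the powers
  `d ^ m` on `V` and on the `W l` the contribution of `X` is `± q ^ (n w m / 2)`).

Then every Tate class on the product, in `n` variables in `V` and in the variables in the `W l`, of
codimension `c₁ + c₂`, `c₂ = n w / 2`, is a sum of products of Tate classes on `Y ^ m'` of codimension
`c₁` and Tate classes on `X ^ n` of codimension `c₂`. So the Tate conjecture for the powers of `X` and
of `Y` implies the surjectivity in the Tate conjecture for the products.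

Nothing is assumed on the other places: the dense set `D` of Frobenius elements is only used through
the known facts that their characteristic polynomials on `V` are rational and that the cyclotomic
character has the values `q d` (up to inversion). Nothing is assumed on the Galois representations
`W l` besides continuity; in particular no semisimplicity. For `X` the semisimplicity is known
(Faltings, Zarhin, Mori for abelian varieties; Deligne, André, Madapusi Pera for K3 surfaces).

Idea of the proof: the logarithms of the elements `s` of `Γ` (endomorphisms of `V` with eigenvalues
`L (a)`, `a` an eigenvalue of `s`, `L` a homomorphism from the multiplicative to the additive group)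
lie in the Lie algebra of endomorphisms whose derivations commute with everything that is
equivariant for a subgroup of finite index. The space `U` of forms in the variables in `V` which
occur in the Tate class gives an ideal: the endomorphisms that act on `U` as on a power of `B`. It
contains a logarithm of `d` with distinct eigenvalues. A stable complement of the ideal commutes with
it, so it consists of simultaneously diagonal endomorphisms with finitely many conjugates, which are
self-adjoint, hence scalars. So the ideal is everything, all elements of `D` act on `U` through the
right power of `χ` up to roots of unity of bounded order, and by continuity and semisimplicity a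
subgroup of finite index acts exactly by this power.
-/

namespace Pool.Agent.Results.MP_0fca13_ag.OneFrobeniusProducts

open Polynomial Pool.Agent.W514.DF Pool.Agent.W514.OP

/-- `E` is an algebraically closed Hausdorff topological field of characteristic zero, `Γ` a
topological group, `χ` a continuous character, `V` and `W l` finite-dimensional continuous
representations, `B` a nondegenerate bilinear form on `V` multiplied by `χ ^ w` such that all
endomorphisms of `V` commuting with a subgroup of finite index are self-adjoint, the forms in two and
in `n` variables in `V` are semisimple under subgroups of finite index, and `n w = 2 c₂`. For all `d`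
in a dense set `D` the number `χ d = q d` is a positive integer and the characteristic polynomial of
`d` on `V` is a rational polynomial `P d`. For ONE `d ∈ D` the characteristic polynomials on the
`W l` are rational polynomials `Q l`, the roots of `P d` are different and their quotients are not
roots of unity, and either the complex roots of `P d` have absolute value `q d ^ (w / 2)` and the
common elements of the fields generated by the roots of `P d` and by the roots of the `Q l` are real,
or the relations between them are real. Then every Tate class of codimension `c₁ + c₂` in the
variables in the `W l` and in `n` variables in `V` is a finite sum of products of Tate classes of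
codimensions `c₁` and `c₂`. -/
theorem result {E Γ : Type*} [Field E] [IsAlgClosed E] [CharZero E] [TopologicalSpace E]
    [IsTopologicalRing E] [T2Space E] [Group Γ] [TopologicalSpace Γ] [IsTopologicalGroup Γ]
    {V κ : Type*} [AddCommGroup V] [Module E V] [FiniteDimensional E V] [Fintype κ] {W : κ → Type*}
    [∀ l, AddCommGroup (W l)] [∀ l, Module E (W l)] [∀ l, FiniteDimensional E (W l)]
    (ρ : Representation E Γ V) (σ : ∀ l, Representation E Γ (W l))
    (χ : Γ →* E) (hχ : Continuous χ) (hρ : IsContinuousRep ρ) (hσ : ∀ l, IsContinuousRep (σ l))
    (n w c₁ c₂ : ℕ) (hc₂ : n * w = 2 * c₂)
    (B : V →ₗ[E] V →ₗ[E] E) (hB : ∀ u, (∀ v, B u v = 0) → u = 0)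
    (hBρ : ∀ s u v, B (ρ s u) (ρ s v) = χ s ^ w * B u v)
    (hss2 : FormsSemisimple (fun _ : Fin 2 => ρ)) (hss : FormsSemisimple (fun _ : Fin n => ρ))
    (htype : EndomorphismsSelfAdjoint ρ B)
    (D : Set Γ) (hD : Dense D) (q : Γ → ℕ) (P : Γ → ℚ[X])
    (hq : ∀ d ∈ D, q d ≠ 0 ∧ χ d = q d)
    (hP : ∀ d ∈ D, (ρ d).charpoly = (P d).map (algebraMap ℚ E))
    (d : Γ) (hd : d ∈ D) (Q : κ → ℚ[X])
    (hQ : ∀ l, (σ l d).charpoly = (Q l).map (algebraMap ℚ E)) (hreg : HasRegularRoots (P d))
    (hreal : ((∀ z ∈ (P d).rootSet ℂ, ‖z‖ ^ 2 = (q d : ℝ) ^ w) ∧
        ∀ z ∈ IntermediateField.adjoin ℚ ((P d).rootSet ℂ), z ∈ rootField Q → star z = z) ∨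
      PowerRelationsAreReal n (P d) Q (q d) w (c₁ + c₂))
    (F : MultilinearMap E W (MultilinearMap E (fun _ : Fin n => V) E))
    (hF : IsTatePair σ (fun _ : Fin n => ρ) χ (c₁ + c₂) F) :
    ∃ (r : ℕ) (a : Fin r → MultilinearMap E W E)
      (b : Fin r → MultilinearMap E (fun _ : Fin n => V) E),
      (∀ j, IsTate σ χ c₁ (a j)) ∧ (∀ j, IsTate (fun _ : Fin n => ρ) χ c₂ (b j)) ∧
      ∀ y x, F y x = ∑ j, a j y * b j x :=
  op_main ρ σ χ hχ hρ hσ n w c₁ c₂ hc₂ B hB hBρ hss2 hss htype D hD q P hq hP d hd Q hQ hreg hreal
    F hF

end Pool.Agent.Results.MP_0fca13_ag.OneFrobeniusProducts
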