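import Pool.Agent.W547.LN.Tate

/-!
# Tate classes on abelian varieties of CM type with simple factors of dimension at most three

Let `A` be an abelian variety over a number field `k` which is, over a finite extension, isogenous to a
product `X` of any number of abelian varieties `A i` of dimension at most three with complex
multiplication by CM fields `E i` (`[E i : ℚ] ≤ 6`), with CM types `Φ i`. Suppose that two factors
whose CM fields have the same Galois closure over `ℚ` have isomorphic CM types (so that they are
isogenous over `ℂ`), unless their CM fields are Galois over `ℚ`. The condition holds for all powers
of `A` if it holds for `A`.

Let `V = V_ℓ(A) = ℚ_ℓ ⊗ H_1(X, ℚ)` be the rational Tate module, with the action `ρ` of the Galois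
group and the cyclotomic character `χ`, and let `γ` be the Frobenius element of one place above a
prime number `p ≠ ℓ` that splits completely in the fields `E i`. It acts by the multiplication by
`π ∈ ∏ E i`, with absolute values given by the theorem of Shimura and Taniyama.

Then all Tate classes on `A` (the classes in `H^{2m}(A, ℚ_ℓ(m))` fixed by a subgroup of finite index
of the Galois group; in particular the classes fixed by the Galois group itself) are linear
combinations, with coefficients in `ℚ_ℓ`, of classes in the ring generated by the classes of divisors
on `X` and by the pull-backs, along homomorphisms `X → Y`, of the Weil classes of imaginary quadratic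
fields on abelian fourfolds and sixfolds `Y` of CM type and of split Weil type.

The Weil classes on abelian fourfolds of Weil type and on abelian sixfolds of split Weil type are
algebraic by theorems of Markman. With these theorems the Tate conjecture holds for all these abelian
varieties (their dimension is not bounded) and all their powers.
-/

namespace Pool.Agent.Results.MP_0fca13_ag.SmallSimpleFactors

open Pool.Agent.W547.KB Pool.Agent.W547.LD Pool.Agent.W530.NF Pool.Agent.W547.LN

/-- `X` a product of abelian varieties of CM type of dimension at most three, such that any two
factors whose CM fields have the same Galois closure have the same type (or these fields are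
Galois), `V` the rational Tate module with the action `ρ` of the Galois group `G`, `γ ∈ G` one
Frobenius element: all Tate classes `f` on `X` are generated. -/
theorem result (X : CMAV) (hX : SmallFactors X) {K V G : Type} [Field K]
    [CharZero K] [AddCommGroup V] [Module K V] [Group G] (C : Comparison X K V)
    (ρ : Representation K G V) (χ : G →* K) (w : AbsoluteValue ℂ ℝ) (q : ℕ) (π : X.H1)
    (γ : G) (h : IsFrobeniusAt X C ρ χ w q π γ) {m : ℕ}
    (f : V [⋀^Fin (2 * m)]→ₗ[K] K) (hf : IsTateClass ρ χ f) : IsGenerated C f :=
  tate_numberField X hX C ρ χ w q π γ h f hf

end Pool.Agent.Results.MP_0fca13_ag.SmallSimpleFactors
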