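import Pool.Agent.W527.TateFinal

/-!
# The ring of Tate classes on all products of powers of simple abelian varieties over finite fields

Let `A i` be finitely many simple abelian varieties over the field with `q = p ^ m` elements, with
Weil numbers `π i` that generate the CM fields `K i = ℚ(π i)`. Let `Ω` be an algebraic closure of
`ℚ_ℓ`. We determine the Tate classes, over all finite extensions, on all products `X` of copies of
the `A i` (all powers, all degrees), for a large class of CM fields, which is defined by a condition
on the CM subfields: every family of CM subfields `T i` of the `K i`, `i ∈ S ≠ ∅`, satisfies one of
the following conditions (`IsMild`).

* (`FewPrimes`) Some prime number divides the discriminant of one of the fields `T i`, but its third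
  power does not divide the product of the discriminants of the `T i`, `i ∈ S`.
* (`FewEmbeddings`) Some automorphism of `ℂ` moves at least one and at most five of the embeddings of
  the `T i`, `i ∈ S`, into `ℂ`.
* (`OneCycle`) Some automorphism of `ℂ` acts on the pairs of conjugate embeddings of the `T i`,
  `i ∈ S`, as one cycle of odd prime length.

In the first two conditions one may replace third power by fourth power and five by seven if
the slopes of the norm of `π i` to `T i` have the same distance from the middle slope, for
instance if `T i` is imaginary quadratic. Nothing is assumed on the slopes of the `A i`.

A CM subfield `T` of `K i` is called degenerate if for two different embeddings of `T` some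
positive powers, with the same exponent, of the conjugates of `N(π i) ^ 2 / p ^ (m [K i : T])` are
equal; here `N` is the norm to `T`. For example, if `T` is imaginary quadratic this says that
this number is a root of unity, so that `A i` has exotic Tate classes of Weil type; and `T = K i`
is not degenerate if the simple factors of `A i` over extensions have the same field.

1. If powers of conjugates of such norms from different fields `K i`, `K i'` are never equal, unless
   they are roots of unity (`NonMixing`), then the ring of Tate classes of every product `X` is
   generated by the Tate classes of degree two, which are divisor classes by Tate's theorem, and by
   the pull-backs, along homomorphisms `X → A i × A i'`, `X → A i`, of Tate classes of `A i × A i'`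
   and `A i`, where `K i` and `K i'` have degenerate CM subfields. (Homomorphisms are linear maps
   that commute with a power of the Frobenius, by Tate's theorem.) In particular the Tate conjecture
   for the abelian varieties `A i × A i'` (`i = i'` allowed) implies the Tate conjecture for all
   products of powers of the `A i`; and it holds if no `K i` has a degenerate CM subfield.
2. If, moreover, the differences of the slopes from the middle slope are odd multiples of one
   number, for instance if all `A i` are ordinary, then the pull-backs of Tate classes of the single
   `A i` suffice: the Tate conjecture for the `A i` implies it for all products of powers.
3. `NonMixing` holds if different fields `K i`, `K i'` have no isomorphic CM subfields.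
4. If `K i` has no proper CM subfield and `A i` is not supersingular, then `K i` has no degenerate
   CM subfield.

The proof of 1.: a Tate class is a combination of monomials in an eigenbasis, which correspond to
families of conjugates of the `π i` whose product is, up to a root of unity, a power of the
square root of `q`. By the theorem of Kronecker this is a linear relation between the slopes of
the `π i` at all places over `p`. Every such relation is shown to come from CM subfields to which the
trace of the slope function does not separate embeddings (descent along CM subfields by elements of
the Galois group which move few embeddings, or along cycles), and the relations are approximated by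
relations with values in `{-1, 0, 1}` (successive rounding along the same chain of subfields). So
every family contains a pair of complex conjugate numbers or a subfamily of different conjugates of
one `π i` with the same property, where `K i` has a degenerate CM subfield.
-/

namespace Pool.Agent.Results.MP_0fca13_ag.TateRingOfPowers

open NumberField Pool.Agent.W527.TateRing

theorem result {p m : ℕ} [Fact p.Prime] {ι : Type} [Fintype ι] (W : ι → WeilNumber p m)
    (hmild : IsMild W) :
    (∀ {Ω : Type} [Field Ω] [IsAlgClosed Ω] [CharZero Ω] (A : ι → FrobSpace Ω),
      (∀ i, IsOfType (A i) (W i)) → NonMixing W → ∀ (J : Type) [Fintype J] (t : J → ι) (κ : Type)
      [Finite κ] (f : Coh (productOf A t) κ), Even (Nat.card κ) →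
      (IsTate (p ^ m) f ↔ TRing (p ^ m) 2 A (fun i => HasDegenerate (W i)) (productOf A t) κ f) ∧
      (OddSlopes W → (IsTate (p ^ m) f ↔
        TRing (p ^ m) 1 A (fun i => HasDegenerate (W i)) (productOf A t) κ f))) ∧
    (NoCommonSubfield W → NonMixing W) ∧
    ∀ i, NoProperCM (W i).K → ¬ Supersingular (p ^ m) (W i).π → ¬ HasDegenerate (W i) :=
  Pool.Agent.W527.TateRing.main hmild

end Pool.Agent.Results.MP_0fca13_ag.TateRingOfPowers
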